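import Pool.Agent.W5h77.MB.Crit
import Pool.Agent.Q60.MU.Fields
import Pool.Agent.H639R3.Z.Gal

/-!
# The layers of the cyclotomic `ℤ_p`-extension
-/

set_option autoImplicit false

namespace Pool.Agent.W5h77.MB

open IntermediateField Module Pool.Agent.Q60.MU NumberField
open scoped commutatorElement Pointwise

/-- `R` is the `m`-th layer of the cyclotomic `ℤ_p`-extension of `ℚ` (for odd `p`): a field of degree
`p ^ m` which is contained in a field generated by roots of unity of `p`-power order. -/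
def IsLayer (p m : ℕ) (R : IntermediateField ℚ Qb) : Prop :=
  finrank ℚ R = p ^ m ∧ ∃ N : ℕ, R ≤ adjoin ℚ {z : Qb | z ^ p ^ N = 1}

theorem root_mem {A : ValuationSubring Qb} {z : Qb} {n : ℕ} (hn : n ≠ 0) (hz : z ^ n = 1) : z ∈ A := by
  apply integral_mem A
  refine ⟨Polynomial.X ^ n - 1, Polynomial.monic_X_pow_sub_C 1 hn, ?_⟩
  simp [hz]

/-- A root of unity of `p`-power order which is congruent to `1` is `1`, away from `p`. -/
theorem root_eq_one {p : ℕ} (hp : p.Prime) {A : ValuationSubring Qb} (hA : (p : Qb) ∉ A.nonunits)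
    {N : ℕ} {u : Qb} (hu : u ^ p ^ N = 1) (hu1 : u - 1 ∈ A.nonunits) : u = 1 := by
  induction N generalizing u with
  | zero => simpa using hu
  | succ N ih =>
    have hpn : p ^ N ≠ 0 := (pow_pos hp.pos N).ne'
    have h1 : u ^ p = 1 := by
      apply ih
      · rw [← pow_mul, ← pow_succ']
        exact hu
      · have h2 : u ^ p - 1 = (u - 1) * ∑ i ∈ Finset.range p, u ^ i := (mul_geom_sum u p).symm
        rw [h2]
        apply mul_nonunits hu1
        exact sum_mem fun i _ => A.pow_mem (root_mem (pow_pos hp.pos (N + 1)).ne' hu) i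
    by_contra hne
    apply hA
    have h2 : ∑ i ∈ Finset.range p, u ^ i = 0 := by
      have h3 : (u - 1) * ∑ i ∈ Finset.range p, u ^ i = 0 := by
        rw [mul_geom_sum, h1, sub_self]
      exact (mul_eq_zero.1 h3).resolve_left (sub_ne_zero.2 hne)
    have h3 : (p : Qb) = ∑ i ∈ Finset.range p, (1 - u ^ i) := by
      rw [Finset.sum_sub_distrib, h2, sub_zero, Finset.sum_const, Finset.card_range, nsmul_eq_mul,
        mul_one]
    rw [h3]
    apply sum_mem
    intro i _
    have h4 : 1 - u ^ i = (u - 1) * (-(∑ j ∈ Finset.range i, u ^ j)) := by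
      rw [mul_neg, mul_geom_sum]
      ring
    rw [h4]
    apply mul_nonunits hu1
    exact neg_mem (sum_mem fun j _ => A.pow_mem (root_mem (pow_pos hp.pos (N + 1)).ne' hu) j)

/-- Away from `p` the layers are unramified. -/
theorem inertia_le_layer {p m : ℕ} (hp : p.Prime) {R : IntermediateField ℚ Qb} (hR : IsLayer p m R)
    {A : ValuationSubring Qb} (hA : (p : Qb) ∉ A.nonunits) : inertia A ≤ R.fixingSubgroup := by
  intro σ hσ
  obtain ⟨-, N, hN⟩ := hR
  have hpn : p ^ N ≠ 0 := (pow_pos hp.pos N).ne'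
  have h1 : ∀ z : Qb, z ^ p ^ N = 1 → σ z = z := by
    intro z hz
    have hz0 : z ≠ 0 := by
      rintro rfl
      rw [zero_pow hpn] at hz
      exact zero_ne_one hz
    have hzA : z ∈ A := root_mem hpn hz
    have hz' : z⁻¹ ∈ A := root_mem hpn (by rw [inv_pow, hz, inv_one])
    have h2 : σ z * z⁻¹ = 1 := by
      apply root_eq_one hp hA (N := N)
      · rw [mul_pow, inv_pow, ← map_pow, hz, map_one, inv_one, mul_one]
      · have h3 : σ z * z⁻¹ - 1 = (σ z - z) * z⁻¹ := by
          rw [sub_mul, mul_inv_cancel₀ hz0]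
        rw [h3]
        exact mul_nonunits (hσ.2 z hzA) hz'
    exact (mul_inv_eq_one₀ hz0).1 h2
  have h2 : adjoin ℚ {z : Qb | z ^ p ^ N = 1} ≤ fixedField (Subgroup.zpowers σ) := by
    rw [adjoin_le_iff]
    intro z hz
    have h3 : Subgroup.zpowers σ ≤ MulAction.stabilizer Gal(Qb/ℚ) z := by
      rw [Subgroup.zpowers_le]
      exact h1 z hz
    exact (mem_fixedField_iff _ _).2 fun f hf => h3 hf
  rw [IntermediateField.mem_fixingSubgroup_iff]
  intro x hx
  exact (mem_fixedField_iff _ _).1 (h2 (hN hx)) σ (Subgroup.mem_zpowers σ)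

/-- At most one prime of `M` lies above `p`: any two valuation rings of `M` in which `p` is not a unit
are equal. -/
def OnePrime (p : ℕ) (M : IntermediateField ℚ Qb) : Prop :=
  ∀ A B : ValuationSubring M, (p : M) ∈ A.nonunits → (p : M) ∈ B.nonunits → A = B

theorem conj_of_one {p : ℕ} (hp : p.Prime) (M : IntermediateField ℚ Qb) [FiniteDimensional ℚ M]
    (h1 : OnePrime p M) {A B : ValuationSubring Qb} (hA : (p : Qb) ∈ A.nonunits)
    (hB : (p : Qb) ∈ B.nonunits) : ∃ g ∈ M.fixingSubgroup, A = g • B := by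
  have hnf : NumberField M := ⟨⟩
  have hint : ∀ (C : ValuationSubring Qb) (a : 𝓞 M), algebraMap (𝓞 M) M a ∈ C.comap (algebraMap M Qb) := by
    intro C a
    rw [ValuationSubring.mem_comap]
    apply integral_mem C
    exact (RingOfIntegers.isIntegral_coe a).map ((algebraMap M Qb).toIntAlgHom)
  have hne : ∀ C : ValuationSubring Qb, (p : Qb) ∈ C.nonunits → C.comap (algebraMap M Qb) ≠ ⊤ := by
    intro C hC htop
    have h2 : ((p : M))⁻¹ ∈ C.comap (algebraMap M Qb) := by rw [htop]; trivial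
    rw [ValuationSubring.mem_comap, map_inv₀, map_natCast] at h2
    rw [ValuationSubring.mem_nonunits_iff_or] at hC
    rcases hC with h3 | h3
    · exact hp.ne_zero (by exact_mod_cast h3)
    · exact h3 h2
  have hmem : ∀ C : ValuationSubring Qb, (p : Qb) ∈ C.nonunits →
      (p : M) ∈ (C.comap (algebraMap M Qb)).nonunits := by
    intro C hC
    rw [ValuationSubring.mem_nonunits_iff, Pool.Agent.H639R3.comap_val_lt_one, map_natCast]
    exact (ValuationSubring.mem_nonunits_iff C).1 hC
  have h2 : A.comap (algebraMap M Qb) = B.comap (algebraMap M Qb) := h1 _ _ (hmem A hA) (hmem B hB)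
  obtain ⟨σ, hσ⟩ := Pool.Agent.H639R3.exists_aut (F := M) (L := Qb) (A := 𝓞 M) B A (hint B)
    (hne B hB) h2.symm
  -- `a ∈ A ↔ σ a ∈ B`
  let τ : Gal(Qb/ℚ) := σ.restrictScalars ℚ
  have hτ : ∀ x, τ x = σ x := fun _ => rfl
  have hτM : τ ∈ M.fixingSubgroup := by
    rw [IntermediateField.mem_fixingSubgroup_iff]
    intro x hx
    exact σ.commutes (⟨x, hx⟩ : M)
  refine ⟨τ⁻¹, inv_mem hτM, ?_⟩
  ext a
  rw [ValuationSubring.mem_pointwise_smul_iff_inv_smul_mem, inv_inv, hσ]
  rfl

/-- **The criterion.** -/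
theorem one_prime {p : ℕ} [hp : Fact p.Prime] (M : IntermediateField ℚ Qb) [FiniteDimensional ℚ M]
    (h1 : OnePrime p M) (h : DegLe p M 1) {m : ℕ} {R : IntermediateField ℚ Qb}
    [FiniteDimensional ℚ R] [hRg : IsGalois ℚ R] (hR : IsLayer p m R) : DegLe p (M ⊔ R) 1 := by
  rw [← rankLe_iff] at h ⊢
  rw [fixingSubgroup_sup]
  have hRn : R.fixingSubgroup.Normal := (InfiniteGalois.normal_iff_isGalois R).2 hRg
  have hidx : R.fixingSubgroup.index = p ^ m := by
    rw [← hR.1, finrank_eq_fixingSubgroup_index Qb R]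
  by_cases hex : ∃ w : ValuationSubring Qb, (p : Qb) ∈ w.nonunits
  · obtain ⟨w, hw⟩ := hex
    refine crit inertia_conj hRn hidx w (fun A => ?_) h
    by_cases hA : (p : Qb) ∈ A.nonunits
    · exact Or.inr (conj_of_one hp.out M h1 hA hw)
    · exact Or.inl (inf_le_left.trans (inertia_le_layer hp.out hR hA))
  · refine crit inertia_conj hRn hidx (⊤ : ValuationSubring Qb) (fun A => ?_) h
    exact Or.inl (inf_le_left.trans (inertia_le_layer hp.out hR fun h2 => hex ⟨A, h2⟩))

end Pool.Agent.W5h77.MB
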