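import Pool.Agent.W5h77.MB.ThmA
import Pool.Agent.W5h77.MB.Cyc

/-!
# The `μ`-invariant
-/

set_option autoImplicit false

namespace Pool.Agent.W5h77.MB

open IntermediateField Module Pool.Agent.Q60.MU
open scoped commutatorElement Pointwise ComplexConjugate

/-- `μ = 0` for the cyclotomic `ℤ_p`-extension of `F`: the elementary abelian unramified
`p`-extensions of the layers `F R` have bounded degree. -/
def MuZero (p : ℕ) (F : IntermediateField ℚ Qb) : Prop :=
  ∃ C : ℕ, ∀ (m : ℕ) (R : IntermediateField ℚ Qb), IsLayer p m R → DegLe p (F ⊔ R) C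

/-- The absolute Galois group acts commutatively on the roots of unity. -/
theorem layer_comm {p m : ℕ} (hp : p.Prime) {R : IntermediateField ℚ Qb} (hR : IsLayer p m R)
    {x : Qb} (hx : x ∈ R) (σ τ : Gal(Qb/ℚ)) : σ (τ x) = τ (σ x) := by
  obtain ⟨-, N, hN⟩ := hR
  have h1 : adjoin ℚ {z : Qb | z ^ p ^ N = 1} ≤ abPart ⊤ := by
    rw [adjoin_le_iff]
    intro z hz
    refine mem_abPart.2 ⟨mem_top, fun σ τ => ?_⟩
    have hz0 : 0 < orderOf z :=
      orderOf_pos_iff.2 (isOfFinOrder_iff_pow_eq_one.2 ⟨p ^ N, pow_pos hp.pos N, hz⟩)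
    have hprim := IsPrimitiveRoot.orderOf z
    have : NeZero (orderOf z) := ⟨hz0.ne'⟩
    have h2 : ∀ σ : Gal(Qb/ℚ), ∃ i, σ z = z ^ i := by
      intro σ
      obtain ⟨i, -, hi⟩ := hprim.eq_pow_of_pow_eq_one (ξ := σ z) (by
        rw [← map_pow, pow_orderOf_eq_one, map_one])
      exact ⟨i, hi.symm⟩
    obtain ⟨i, hi⟩ := h2 σ
    obtain ⟨j, hj⟩ := h2 τ
    rw [hi, hj, map_pow, map_pow, hi, hj, ← pow_mul, ← pow_mul, mul_comm]
  exact (mem_abPart.1 (h1 (hN hx))).2 σ τ

theorem layer_fd {p m : ℕ} (hp : p.Prime) {R : IntermediateField ℚ Qb} (hR : IsLayer p m R) :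
    FiniteDimensional ℚ R :=
  FiniteDimensional.of_finrank_pos (by rw [hR.1]; exact pow_pos hp.pos m)

theorem layer_normal {p m : ℕ} (hp : p.Prime) {R : IntermediateField ℚ Qb} (hR : IsLayer p m R) :
    R.fixingSubgroup.Normal := by
  refine ⟨fun f hf g => ?_⟩
  rw [IntermediateField.mem_fixingSubgroup_iff] at hf ⊢
  intro x hx
  show g (f (g⁻¹ x)) = x
  rw [layer_comm hp hR hx f g⁻¹, hf x hx]
  show (g * g⁻¹) x = x
  rw [mul_inv_cancel]
  rfl

theorem layer_galois {p m : ℕ} (hp : p.Prime) {R : IntermediateField ℚ Qb} (hR : IsLayer p m R) :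
    IsGalois ℚ R :=
  (InfiniteGalois.normal_iff_isGalois R).1 (layer_normal hp hR)

theorem layer_real {p m : ℕ} (hp : p.Prime) (hp2 : p ≠ 2) {R : IntermediateField ℚ Qb}
    (hR : IsLayer p m R) (ι : Qb →+* ℂ) : R ≤ realSub ι := by
  obtain ⟨c, hc, hcc⟩ := exists_conj ι
  have hn := layer_normal hp hR
  have hfd := layer_fd hp hR
  have hidx : R.fixingSubgroup.index = p ^ m := by
    rw [← hR.1, finrank_eq_fixingSubgroup_index Qb R]
  have h1 : c ^ p ^ m ∈ R.fixingSubgroup := by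
    rw [← hidx]
    exact R.fixingSubgroup.pow_index_mem c
  have hodd : Odd (p ^ m) := (hp.odd_of_ne_two hp2).pow
  obtain ⟨j, hj⟩ := hodd
  have h2 : c ^ p ^ m = c := by
    rw [hj, pow_succ, pow_mul, pow_two, hcc, one_pow, one_mul]
  rw [h2] at h1
  intro x hx
  rw [mem_realSub, ← hc]
  congr 1
  exact (IntermediateField.mem_fixingSubgroup_iff R _).1 h1 x hx

/-- Subfields. -/
theorem mu_down {p : ℕ} (hp : p.Prime) {F K : IntermediateField ℚ Qb} [FiniteDimensional ℚ K]
    [hKg : IsGalois ℚ K] (hFK : F ≤ K) (h : MuZero p K) : MuZero p F := by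
  obtain ⟨C, hC⟩ := h
  refine ⟨C * K.fixingSubgroup.index, fun m R hR => ?_⟩
  have hfR := layer_fd hp hR
  have hfF : FiniteDimensional ℚ F :=
    Submodule.finiteDimensional_of_le (S₁ := Subalgebra.toSubmodule F.toSubalgebra)
      (S₂ := Subalgebra.toSubmodule K.toSubalgebra) hFK
  have hKn : K.fixingSubgroup.Normal := (InfiniteGalois.normal_iff_isGalois K).2 hKg
  have h0 := hC m R hR
  rw [← rankLe_iff] at h0 ⊢
  rw [fixingSubgroup_sup] at h0 ⊢
  have h1 : (K.fixingSubgroup ⊓ R.fixingSubgroup).relIndex (F.fixingSubgroup ⊓ R.fixingSubgroup) =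
      K.fixingSubgroup.relIndex (F.fixingSubgroup ⊓ R.fixingSubgroup) := by
    have hle : K.fixingSubgroup ≤ F.fixingSubgroup := fixingSubgroup_le hFK
    rw [← Subgroup.inf_relIndex_right, ← Subgroup.inf_relIndex_right K.fixingSubgroup]
    congr 1
    ext x
    simp only [Subgroup.mem_inf]
    tauto
  have h2 : K.fixingSubgroup.relIndex (F.fixingSubgroup ⊓ R.fixingSubgroup) ∣
      K.fixingSubgroup.index := Subgroup.relIndex_dvd_index_of_normal _ _
  have h3 : (K.fixingSubgroup ⊓ R.fixingSubgroup).relIndex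
      (F.fixingSubgroup ⊓ R.fixingSubgroup) ≠ 0 := by
    rw [h1]
    intro h
    rw [h] at h2
    exact index_ne_zero' K (Nat.eq_zero_of_zero_dvd h2)
  refine (RankLe.of_le (inf_le_inf_right _ (fixingSubgroup_le hFK)) (by
    rw [Subgroup.coe_inf]
    exact K.fixingSubgroup_isOpen.inter R.fixingSubgroup_isOpen) h3 h0).mono ?_
  rw [h1]
  exact Nat.mul_le_mul_left _ (Nat.le_of_dvd (Nat.pos_of_ne_zero (index_ne_zero' K)) h2)

end Pool.Agent.W5h77.MB
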