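import Pool.Agent.W5h77.MB.Cop
import Pool.Agent.X310.MuAlg

/-!
# Involutions: the elementary abelian quotients of a normal subgroup
-/

set_option autoImplicit false

namespace Pool.Agent.W5h77.MB

open Subgroup Pool.Agent.Q60.MU
open Pool.Agent.X310.Mu (nm nm_eq nm_of_fix eq_one_of_cop comms)
open scoped commutatorElement

section V
variable {𝔾 : Type} [Group 𝔾] (𝒦 Q : Subgroup 𝔾) [Q.Normal]

/-- The quotient of `𝒦` by `Q`, as a subgroup of the quotient of the whole group. -/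
abbrev VV : Subgroup (𝔾 ⧸ Q) := 𝒦.map (QuotientGroup.mk' Q)

/-- The projection. -/
def th : 𝒦 →* VV 𝒦 Q where
  toFun x := ⟨QuotientGroup.mk' Q x, x, x.2, rfl⟩
  map_one' := Subtype.ext (map_one _)
  map_mul' x y := Subtype.ext (map_mul (QuotientGroup.mk' Q) (x : 𝔾) y)

theorem th_surj : Function.Surjective (th 𝒦 Q) := by
  rintro ⟨_, x, hx, rfl⟩
  exact ⟨⟨x, hx⟩, rfl⟩

theorem th_eq_one {x : 𝒦} : th 𝒦 Q x = 1 ↔ (x : 𝔾) ∈ Q := by
  rw [← QuotientGroup.eq_one_iff (N := Q) (x : 𝔾)]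
  exact ⟨fun h => congrArg Subtype.val h, fun h => Subtype.ext h⟩

theorem th_ker : (th 𝒦 Q).ker = Q.subgroupOf 𝒦 := by
  ext x
  rw [MonoidHom.mem_ker, th_eq_one]
  rfl

theorem card_VV : Nat.card (VV 𝒦 Q) = Q.relIndex 𝒦 := by
  show _ = (Q.subgroupOf 𝒦).index
  rw [← th_ker, index_ker, MonoidHom.range_eq_top.2 (th_surj 𝒦 Q), card_top]

variable [h𝒦 : 𝒦.Normal]

instance : (VV 𝒦 Q).Normal := h𝒦.map _ (QuotientGroup.mk'_surjective Q)

/-- Conjugation. -/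
def act : 𝔾 →* MulAut (VV 𝒦 Q) := (MulAut.conjNormal).comp (QuotientGroup.mk' Q)

theorem act_th (g : 𝔾) (x : 𝒦) : act 𝒦 Q g (th 𝒦 Q x) = th 𝒦 Q ⟨g * x * g⁻¹, h𝒦.conj_mem x x.2 g⟩ := by
  apply Subtype.ext
  show (MulAut.conjNormal (QuotientGroup.mk' Q g) (th 𝒦 Q x) : 𝔾 ⧸ Q) = _
  rw [MulAut.conjNormal_apply]
  show QuotientGroup.mk' Q g * QuotientGroup.mk' Q x * (QuotientGroup.mk' Q g)⁻¹ =
    QuotientGroup.mk' Q (g * x * g⁻¹)
  rw [map_mul, map_mul, map_inv]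

/-- The preimage. -/
def pre (S : Subgroup (VV 𝒦 Q)) : Subgroup 𝔾 := (S.comap (th 𝒦 Q)).map 𝒦.subtype

omit h𝒦 in
theorem pre_le (S : Subgroup (VV 𝒦 Q)) : pre 𝒦 Q S ≤ 𝒦 := by
  rintro _ ⟨x, _, rfl⟩
  exact x.2

omit h𝒦 in
theorem mem_pre (S : Subgroup (VV 𝒦 Q)) (x : 𝒦) : (x : 𝔾) ∈ pre 𝒦 Q S ↔ th 𝒦 Q x ∈ S := by
  constructor
  · rintro ⟨y, hy, hyx⟩
    have h1 : y = x := Subtype.ext hyx
    rw [← h1]
    exact hy
  · intro h
    exact ⟨x, h, rfl⟩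

omit h𝒦 in
theorem pre_relIndex (S : Subgroup (VV 𝒦 Q)) : (pre 𝒦 Q S).relIndex 𝒦 = S.index := by
  show (((S.comap (th 𝒦 Q)).map 𝒦.subtype).comap 𝒦.subtype).index = _
  rw [comap_map_eq_self_of_injective 𝒦.subtype_injective,
    index_comap_of_surjective S (th_surj 𝒦 Q)]

omit h𝒦 in
theorem le_pre (hQ : Q ≤ 𝒦) (S : Subgroup (VV 𝒦 Q)) : Q ≤ pre 𝒦 Q S := by
  intro q hq
  rw [mem_pre 𝒦 Q S ⟨q, hQ hq⟩, (th_eq_one 𝒦 Q).2 hq]
  exact S.one_mem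

theorem step [TopologicalSpace 𝔾] [ContinuousMul 𝔾] {p : ℕ} [hp : Fact p.Prime] {Ω : Type}
    {I : Ω → Subgroup 𝔾} {L : Subgroup 𝔾} (hKL : 𝒦 ≤ L) (hn : ¬ p ∣ 𝒦.relIndex L)
    (hQ : Q ≤ 𝒦) (hQo : IsOpen (Q : Set 𝔾)) (hQf : Q.relIndex 𝒦 ≠ 0)
    (hg : gens p I 𝒦 ⊆ Q) {S : Subgroup (VV 𝒦 Q)}
    (hS : ∀ l ∈ L, ∀ v, act 𝒦 Q l v * v⁻¹ ∈ S)
    {C : ℕ} (hC : RankLe p I L C) : S.index ≤ C := by
  have hfin : Finite (VV 𝒦 Q) := by
    apply Nat.finite_of_card_ne_zero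
    rw [card_VV]
    exact hQf
  rw [← pre_relIndex]
  refine genus_cop hKL hn (pre_le 𝒦 Q S) (Subgroup.isOpen_mono (le_pre 𝒦 Q hQ S) hQo) ?_
    (hg.trans (le_pre 𝒦 Q hQ S)) ?_ hC
  · rw [pre_relIndex]
    exact S.index_ne_zero_of_finite
  · intro l hl k hk
    have h1 : ⁅l, k⁆ ∈ 𝒦 := by
      rw [commutatorElement_def]
      exact 𝒦.mul_mem (h𝒦.conj_mem k hk l) (𝒦.inv_mem hk)
    rw [mem_pre 𝒦 Q S ⟨_, h1⟩]
    have h2 := hS l hl (th 𝒦 Q ⟨k, hk⟩)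
    rw [act_th, ← map_inv, ← map_mul] at h2
    exact h2

end V

section inv
variable {V : Type} [CommGroup V]

/-- The elements which are inverted by an automorphism. -/
def neg (γ : MulAut V) : Subgroup V where
  carrier := {v | γ v = v⁻¹}
  mul_mem' := by
    intro a b ha hb
    show γ (a * b) = (a * b)⁻¹
    rw [map_mul, show γ a = a⁻¹ from ha, show γ b = b⁻¹ from hb, mul_inv]
  one_mem' := by
    show γ 1 = 1⁻¹
    rw [map_one, inv_one]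
  inv_mem' := by
    intro a ha
    show γ a⁻¹ = a⁻¹⁻¹
    rw [map_inv, show γ a = a⁻¹ from ha]

theorem mem_neg {γ : MulAut V} {v : V} : v ∈ neg γ ↔ γ v = v⁻¹ := Iff.rfl

variable [Finite V]

/-- The norm. -/
noncomputable def nu (D : Subgroup (MulAut V)) : V →* V where
  toFun := nm (MonoidHom.id (MulAut V)) D
  map_one' := by
    classical
    have : Fintype D := Fintype.ofFinite D
    rw [nm_eq]
    exact Finset.prod_eq_one fun σ _ => map_one _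
  map_mul' x y := by
    classical
    have : Fintype D := Fintype.ofFinite D
    rw [nm_eq, nm_eq, nm_eq, ← Finset.prod_mul_distrib]
    exact Finset.prod_congr rfl fun σ _ => map_mul _ _ _

theorem nu_act (D : Subgroup (MulAut V)) {δ : MulAut V} (hδ : δ ∈ D) (v : V) :
    nu D (δ v) = nu D v := by
  classical
  have : Fintype D := Fintype.ofFinite D
  show nm (MonoidHom.id (MulAut V)) D (δ v) = nm (MonoidHom.id (MulAut V)) D v
  rw [nm_eq, nm_eq]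
  refine Fintype.prod_equiv (Equiv.mulRight (⟨δ, hδ⟩ : D)) _ _ fun σ => ?_
  rfl

theorem card_bound {p : ℕ} (hp : p.Prime) (hV : ∀ v : V, v ^ p = 1) {ι : Type} [Fintype ι]
    (γ : ι → MulAut V) (D : Subgroup (MulAut V)) (hD : ¬ p ∣ Nat.card D)
    (hfix : ∀ v : V, (∀ i, γ i v = v⁻¹) → ∀ δ ∈ D, δ v = v) {C1 C2 : ℕ}
    (h1 : ∀ i, (neg (γ i)).index ≤ C1) (h2 : (nu D).ker.index ≤ C2) :
    Nat.card V ≤ C1 ^ Fintype.card ι * C2 := by
  set U : Subgroup V := ⨅ i, neg (γ i) with hU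
  have hmem : ∀ v, v ∈ U ↔ ∀ i, γ i v = v⁻¹ := by
    intro v
    rw [hU, mem_iInf]
    rfl
  have h3 : U.index ≤ C1 ^ Fintype.card ι := by
    calc U.index ≤ ∏ i, (neg (γ i)).index := index_iInf_le _
      _ ≤ ∏ _i : ι, C1 := Finset.prod_le_prod' fun i _ => h1 i
      _ = C1 ^ Fintype.card ι := by rw [Finset.prod_const, Finset.card_univ]
  have h4 : Nat.card U ≤ C2 := by
    refine le_trans ?_ h2
    rw [index_ker]
    let f : U → (nu D).range := fun u => ⟨nu D u, u, rfl⟩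
    refine Nat.card_le_card_of_injective f ?_
    intro u u' h
    have h5 : nu D (u : V) = nu D (u' : V) := congrArg Subtype.val h
    have h6 : nu D ((u : V) * (u' : V)⁻¹) = 1 := by
      rw [map_mul, map_inv, h5, mul_inv_cancel]
    have h7 : (u : V) * (u' : V)⁻¹ ∈ U := U.mul_mem u.2 (U.inv_mem u'.2)
    have h8 := hfix _ ((hmem _).1 h7)
    have h9 : nu D ((u : V) * (u' : V)⁻¹) = ((u : V) * (u' : V)⁻¹) ^ Nat.card D :=
      nm_of_fix _ _ _ h8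
    rw [h9] at h6
    have h10 := eq_one_of_cop hp hD (hV _) h6
    exact Subtype.ext (mul_inv_eq_one.1 h10)
  rw [← U.card_mul_index, mul_comm]
  exact Nat.mul_le_mul h3 h4

end inv

end Pool.Agent.W5h77.MB
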