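import Pool.Agent.Q60.MU.Reduction

/-!
# Descent of elementary abelian quotients through normal subgroups of index prime to `p`
-/

set_option autoImplicit false

namespace Pool.Agent.W5h77.MB

open Subgroup Pool.Agent.Q60.MU
open scoped commutatorElement

variable {𝔾 : Type} [Group 𝔾]

theorem genus_cop [TopologicalSpace 𝔾] [ContinuousMul 𝔾] {p : ℕ} [hp : Fact p.Prime] {Ω : Type}
    {I : Ω → Subgroup 𝔾} {K L Q : Subgroup 𝔾} (hKL : K ≤ L) (hn : ¬ p ∣ K.relIndex L)
    (hQK : Q ≤ K) (hQo : IsOpen (Q : Set 𝔾)) (hQf : Q.relIndex K ≠ 0)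
    (hg : gens p I K ⊆ Q) (hc : ∀ l ∈ L, ∀ k ∈ K, ⁅l, k⁆ ∈ Q)
    {C : ℕ} (hC : RankLe p I L C) : Q.relIndex K ≤ C := by
  classical
  have hn0 : K.relIndex L ≠ 0 := fun h => hn (h ▸ dvd_zero p)
  have hQL : Q ≤ L := hQK.trans hKL
  have hN : (Q.subgroupOf L).Normal := by
    refine ⟨fun q hq l => ?_⟩
    rw [mem_subgroupOf] at hq ⊢
    have h1 : ((l * q * l⁻¹ : L) : 𝔾) = ⁅(l : 𝔾), (q : 𝔾)⁆ * q := by
      rw [commutatorElement_def]
      push_cast
      group
    rw [h1]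
    exact Q.mul_mem (hc l l.2 q (hQK hq)) hq
  have hidx : (Q.subgroupOf L).index = Q.relIndex K * K.relIndex L :=
    (relIndex_mul_relIndex Q K L hQK hKL).symm
  have hfi : (Q.subgroupOf L).FiniteIndex := ⟨by
    rw [hidx]
    exact mul_ne_zero hQf hn0⟩
  have hfin : Finite (L ⧸ Q.subgroupOf L) := inferInstance
  let mk : L →* L ⧸ Q.subgroupOf L := QuotientGroup.mk' (Q.subgroupOf L)
  have hmk : Function.Surjective mk := QuotientGroup.mk'_surjective _
  have hker : mk.ker = Q.subgroupOf L := QuotientGroup.ker_mk' _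
  have hmk1 : ∀ x : L, (x : 𝔾) ∈ Q → mk x = 1 := by
    intro x hx
    have h1 : x ∈ mk.ker := by
      rw [hker]
      exact hx
    exact h1
  have hmk2 : ∀ x : L, mk x = 1 → (x : 𝔾) ∈ Q := by
    intro x hx
    have h1 : x ∈ mk.ker := hx
    rw [hker] at h1
    exact h1
  let E : Subgroup (L ⧸ Q.subgroupOf L) := (K.subgroupOf L).map mk
  have hE : E ≤ center _ := by
    rintro _ ⟨k, hk, rfl⟩
    rw [mem_center_iff]
    intro g
    obtain ⟨l, rfl⟩ := hmk g
    rw [← map_mul, ← map_mul]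
    have h1 : mk ((l * k) * (k * l)⁻¹) = 1 := by
      apply hmk1
      have h2 : (((l * k) * (k * l)⁻¹ : L) : 𝔾) = ⁅(l : 𝔾), (k : 𝔾)⁆ := by
        rw [commutatorElement_def]
        push_cast
        group
      rw [h2]
      exact hc l l.2 k hk
    rw [map_mul, map_inv] at h1
    exact mul_inv_eq_one.1 h1
  have hEp : ∀ e ∈ E, e ^ p = 1 := by
    rintro _ ⟨k, hk, rfl⟩
    rw [← map_pow]
    apply hmk1
    exact hg (Or.inl (Or.inl ⟨k, hk, by push_cast; rfl⟩))
  have hEi : E.index = K.relIndex L := by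
    show ((K.subgroupOf L).map mk).index = (K.subgroupOf L).index
    have h1 : mk.ker ≤ K.subgroupOf L := by
      rw [hker]
      intro x hx
      exact hQK hx
    rw [index_map, sup_eq_left.2 h1, MonoidHom.range_eq_top.2 hmk, index_top, mul_one]
  let _ : CommGroup E := { (inferInstance : Group E) with
    mul_comm := fun a b => Subtype.ext ((mem_center_iff.1 (hE b.2)) a.1) }
  have key : ∀ (g : L ⧸ Q.subgroupOf L) (k : ℕ) (g₀ : L ⧸ Q.subgroupOf L), g₀⁻¹ * g ^ k * g₀ ∈ E →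
      g₀⁻¹ * g ^ k * g₀ = g ^ k := by
    intro g k g₀ h
    have h1 := (mem_center_iff.1 (hE h)) g₀
    have h2 : g ^ k * g₀ = g₀⁻¹ * g ^ k * g₀ * g₀ := by
      rw [← h1]
      group
    exact (mul_right_cancel h2).symm
  let T : (L ⧸ Q.subgroupOf L) →* E := MonoidHom.transfer (MonoidHom.id E)
  have hT : ∀ g, ((T g : E) : L ⧸ Q.subgroupOf L) = g ^ E.index := by
    intro g
    have h1 := MonoidHom.transfer_eq_pow (MonoidHom.id E) g (key g)
    have h2 := congrArg (fun z : E => (z : L ⧸ Q.subgroupOf L)) h1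
    exact h2
  set n := K.relIndex L with hndef
  let T' : L →* E := T.comp mk
  have hT' : ∀ x : L, ((T' x : E) : L ⧸ Q.subgroupOf L) = mk x ^ n := by
    intro x
    have h1 := hT (mk x)
    rw [hEi] at h1
    exact h1
  have hsurj : Function.Surjective T' := by
    rintro ⟨_, k, hk, rfl⟩
    have hcop : Nat.Coprime n p := ((Nat.Prime.coprime_iff_not_dvd hp.out).2 hn).symm
    obtain ⟨m, -, hm⟩ := Nat.exists_mul_mod_eq_one_of_coprime hcop hp.out.one_lt
    refine ⟨k ^ m, ?_⟩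
    apply Subtype.ext
    rw [hT', map_pow, ← pow_mul]
    have h1 : mk k ^ p = 1 := hEp _ ⟨k, hk, rfl⟩
    rw [mul_comm m n, ← Nat.div_add_mod (n * m) p, hm, pow_add, pow_mul, h1, one_pow, one_mul,
      pow_one]
  have hcard : Nat.card E = Q.relIndex K := by
    have h1 := E.card_mul_index
    have h2 : Nat.card (L ⧸ Q.subgroupOf L) = Q.relIndex K * n := hidx
    rw [h2, hEi] at h1
    exact Nat.eq_of_mul_eq_mul_right (Nat.pos_of_ne_zero hn0) h1
  set W : Subgroup 𝔾 := T'.ker.map L.subtype with hW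
  have hWL : W ≤ L := by
    rintro _ ⟨x, _, rfl⟩
    exact x.2
  have hmemW : ∀ x : L, T' x = 1 → (x : 𝔾) ∈ W := fun x hx => ⟨x, hx, rfl⟩
  have hQW : Q ≤ W := by
    intro q hq
    refine hmemW ⟨q, hQL hq⟩ ?_
    apply Subtype.ext
    rw [hT', hmk1 ⟨q, hQL hq⟩ hq, one_pow]
    rfl
  have h3 : W.relIndex L = Q.relIndex K := by
    show ((T'.ker.map L.subtype).comap L.subtype).index = _
    rw [comap_map_eq_self_of_injective L.subtype_injective, index_ker,
      MonoidHom.range_eq_top.2 hsurj, card_top, hcard]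
  have h4 : gens p I L ⊆ W := by
    rintro x ((⟨a, ha, rfl⟩ | ⟨a, ha, b, hb, rfl⟩) | ⟨hx, w, hw⟩)
    · refine hmemW (⟨a, ha⟩ ^ p) ?_
      apply Subtype.ext
      rw [map_pow]
      exact hEp _ (T' ⟨a, ha⟩).2
    · refine hmemW ⁅(⟨a, ha⟩ : L), (⟨b, hb⟩ : L)⁆ ?_
      rw [map_commutatorElement, commutatorElement_eq_one_iff_mul_comm]
      exact mul_comm _ _
    · refine hmemW ⟨x, hx⟩ ?_
      apply Subtype.ext
      rw [hT', ← map_pow]
      apply hmk1
      have h5 : mk (⟨x, hx⟩ ^ n) ∈ E := by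
        rw [map_pow, ← hT']
        exact (T' ⟨x, hx⟩).2
      obtain ⟨k, hk, hk2⟩ := h5
      have h6 : (((⟨x, hx⟩ : L) ^ n * k⁻¹ : L) : 𝔾) ∈ Q := by
        apply hmk2
        rw [map_mul, map_inv, hk2, mul_inv_cancel]
      have h7 : (((⟨x, hx⟩ : L) ^ n : L) : 𝔾) ∈ K := by
        have h8 : (((⟨x, hx⟩ : L) ^ n : L) : 𝔾) = (((⟨x, hx⟩ : L) ^ n * k⁻¹ : L) : 𝔾) * (k : 𝔾) := by
          push_cast
          group
        rw [h8]
        exact K.mul_mem (hQK h6) hk
      refine hg (Or.inr ⟨h7, w, ?_⟩)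
      push_cast
      exact (I w).pow_mem hw n
  have h5 := hC W hWL (Subgroup.isOpen_mono hQW hQo) (by
    rw [h3]
    exact hQf) h4
  rwa [h3] at h5

end Pool.Agent.W5h77.MB
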