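import Pool.Agent.Q60.MU.Reduction

/-!
# One totally ramified prime
-/

set_option autoImplicit false

namespace Pool.Agent.W5h77.MB

open Subgroup Pool.Agent.Q60.MU
open scoped commutatorElement

variable {𝔾 : Type} [Group 𝔾]

/-- A maximal subgroup of a finite `p`-group contains the `p`-th powers and the commutators. -/
theorem coatom_facts {G : Type} [Group G] [Finite G] {p : ℕ} [hp : Fact p.Prime] (hG : IsPGroup p G)
    {M : Subgroup G} (hM : IsCoatom M) :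
    M.Normal ∧ (∀ a : G, a ^ p ∈ M) ∧ ∀ a b : G, ⁅a, b⁆ ∈ M := by
  have hnil := hG.isNilpotent
  have hMn : M.Normal := NormalizerCondition.normal_of_coatom M
    Group.normalizerCondition_of_isNilpotent hM
  have key : ∀ S : Subgroup (G ⧸ M), S = ⊥ ∨ S = ⊤ := by
    intro S
    have h1 : M ≤ S.comap (QuotientGroup.mk' M) := by
      intro x hx
      rw [mem_comap]
      have h2 : QuotientGroup.mk' M x = 1 := (QuotientGroup.eq_one_iff x).2 hx
      rw [h2]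
      exact S.one_mem
    have hS : (S.comap (QuotientGroup.mk' M)).map (QuotientGroup.mk' M) = S :=
      map_comap_eq_self_of_surjective (QuotientGroup.mk'_surjective M) S
    rcases h1.eq_or_lt with h2 | h2
    · left
      rw [← hS, ← h2, eq_bot_iff]
      rintro _ ⟨x, hx, rfl⟩
      rw [mem_bot]
      exact (QuotientGroup.eq_one_iff x).2 hx
    · right
      rw [← hS, hM.2 _ h2]
      exact map_top_of_surjective _ (QuotientGroup.mk'_surjective M)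
  have hP : IsPGroup p (G ⧸ M) := hG.to_quotient M
  have hpow : ∀ s : G ⧸ M, s ^ p = 1 := by
    intro s
    by_contra hs
    rcases key (zpowers (s ^ p)) with h | h
    · rw [zpowers_eq_bot] at h
      exact hs h
    · have h1 : s ∈ zpowers (s ^ p) := by rw [h]; trivial
      obtain ⟨k, hk⟩ := h1
      obtain ⟨n, hn⟩ := hP s
      have hk' : s ^ ((p : ℤ) * k - 1) = 1 := by
        rw [zpow_sub, zpow_mul, zpow_natCast, zpow_one]
        show (fun x : ℤ => (s ^ p) ^ x) k * s⁻¹ = 1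
        rw [hk, mul_inv_cancel]
      have h2 : (orderOf s : ℤ) ∣ (p : ℤ) * k - 1 := orderOf_dvd_iff_zpow_eq_one.2 hk'
      have h3 : orderOf s ∣ p ^ n := orderOf_dvd_of_pow_eq_one hn
      obtain ⟨e, -, he⟩ := (Nat.dvd_prime_pow hp.out).1 h3
      rcases Nat.eq_zero_or_pos e with rfl | he0
      · rw [pow_zero, orderOf_eq_one_iff] at he
        apply hs
        rw [he, one_pow]
      · have h4 : (p : ℤ) ∣ (orderOf s : ℤ) := by
          rw [he]
          exact_mod_cast dvd_pow_self p he0.ne'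
        have h5 : (p : ℤ) ∣ 1 := by
          have h6 := (dvd_sub_right (dvd_mul_right (p : ℤ) k)).1 (h4.trans h2)
          exact h6
        have h7 : p ∣ 1 := by exact_mod_cast h5
        exact hp.out.one_lt.ne' (Nat.dvd_one.1 h7)
  have hcomm : ∀ s t : G ⧸ M, s * t = t * s := by
    intro s t
    rcases key (zpowers s) with h | h
    · rw [zpowers_eq_bot] at h
      rw [h, one_mul, mul_one]
    · have h1 : t ∈ zpowers s := by rw [h]; trivial
      obtain ⟨k, rfl⟩ := h1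
      exact ((Commute.refl s).zpow_right k).eq
  refine ⟨hMn, fun a => ?_, fun a b => ?_⟩
  · rw [← QuotientGroup.eq_one_iff]
    have h1 := hpow (a : G ⧸ M)
    rw [← QuotientGroup.mk_pow] at h1
    exact h1
  · rw [← QuotientGroup.eq_one_iff]
    show QuotientGroup.mk' M ⁅a, b⁆ = 1
    rw [map_commutatorElement, commutatorElement_eq_one_iff_mul_comm]
    exact hcomm _ _

theorem crit [TopologicalSpace 𝔾] [ContinuousMul 𝔾] {p : ℕ} [hp : Fact p.Prime]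
    {Ω : Type} [MulAction 𝔾 Ω] {I : Ω → Subgroup 𝔾}
    (hI : ∀ (g : 𝔾) (w : Ω), ∀ x ∈ I w, g * x * g⁻¹ ∈ I (g • w))
    {Γ D : Subgroup 𝔾} (hDn : D.Normal) {m : ℕ} (hDi : D.index = p ^ m)
    (w : Ω) (hcov : ∀ A, I A ⊓ Γ ≤ D ∨ ∃ g ∈ Γ, A = g • w) (h : RankLe p I Γ 1) :
    RankLe p I (Γ ⊓ D) 1 := by
  classical
  intro W hWH hWo hWf hg
  set H := Γ ⊓ D with hH
  have hHΓ : H ≤ Γ := inf_le_left
  have hDΓ : H.relIndex Γ ≠ 0 := by
    have h1 : H.relIndex Γ = D.relIndex Γ := inf_relIndex_left Γ D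
    rw [h1]
    intro h0
    have h2 := relIndex_dvd_index_of_normal D Γ
    rw [h0, hDi] at h2
    exact (pow_pos hp.out.pos m).ne' (Nat.eq_zero_of_zero_dvd h2)
  have hHn : ∀ d ∈ Γ, ∀ x ∈ H, d * x * d⁻¹ ∈ H := fun d hd x hx =>
    ⟨Γ.mul_mem (Γ.mul_mem hd hx.1) (Γ.inv_mem hd), hDn.conj_mem x hx.2 d⟩
  obtain ⟨Q, hQW, hQo, hQf, hgQ, hQn⟩ := exists_core hI (K := H) (D := Γ) hHn hDΓ hWH hWo hWf hg
  have hQH := hQW.trans hWH
  by_contra hcon
  have hne : ∃ x ∈ H, x ∉ Q := by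
    by_contra h1
    push Not at h1
    have h2 : W = H := le_antisymm hWH (fun x hx => hQW (h1 x hx))
    rw [h2, relIndex_self] at hcon
    exact hcon le_rfl
  obtain ⟨x₀, hx₀, hx₀Q⟩ := hne
  have hN : (Q.subgroupOf Γ).Normal := by
    refine ⟨fun q hq l => ?_⟩
    rw [mem_subgroupOf] at hq ⊢
    exact hQn l l.2 q hq
  have hidx : (Q.subgroupOf Γ).index ≠ 0 := by
    have h1 : (Q.subgroupOf Γ).index = Q.relIndex H * H.relIndex Γ :=
      (relIndex_mul_relIndex Q H Γ hQH hHΓ).symm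
    rw [h1]
    exact mul_ne_zero hQf hDΓ
  have hfi : (Q.subgroupOf Γ).FiniteIndex := ⟨hidx⟩
  have hfin : Finite (Γ ⧸ Q.subgroupOf Γ) := inferInstance
  let mk : Γ →* Γ ⧸ Q.subgroupOf Γ := QuotientGroup.mk' (Q.subgroupOf Γ)
  have hmk : Function.Surjective mk := QuotientGroup.mk'_surjective _
  have hmk1 : ∀ x : Γ, mk x = 1 ↔ (x : 𝔾) ∈ Q := fun x => QuotientGroup.eq_one_iff x
  have hG : IsPGroup p (Γ ⧸ Q.subgroupOf Γ) := by
    intro g
    obtain ⟨γ, rfl⟩ := hmk g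
    refine ⟨m + 1, ?_⟩
    rw [← map_pow, hmk1, pow_succ p m, pow_mul]
    have h1 : (((γ ^ p ^ m : Γ)) : 𝔾) ∈ H := by
      refine ⟨(γ ^ p ^ m).2, ?_⟩
      push_cast
      rw [← hDi]
      exact D.pow_index_mem (γ : 𝔾)
    exact hgQ (Or.inl (Or.inl ⟨_, h1, by push_cast; rfl⟩))
  let J : Subgroup (Γ ⧸ Q.subgroupOf Γ) := ((I w).subgroupOf Γ).map mk
  have hJ : J ≠ ⊤ := by
    intro htop
    have h1 : mk ⟨x₀, hHΓ hx₀⟩ ∈ J := by rw [htop]; trivial
    obtain ⟨j, hj, hjx⟩ := h1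
    have h2 : (((⟨x₀, hHΓ hx₀⟩ : Γ)⁻¹ * j : Γ) : 𝔾) ∈ Q := by
      rw [← hmk1, map_mul, map_inv, hjx, inv_mul_cancel]
    have h3 : (j : 𝔾) = x₀ * (((⟨x₀, hHΓ hx₀⟩ : Γ)⁻¹ * j : Γ) : 𝔾) := by
      push_cast
      group
    have h4 : (j : 𝔾) ∈ H := by
      rw [h3]
      exact H.mul_mem hx₀ (hQH h2)
    have h5 : (j : 𝔾) ∈ Q := hgQ (Or.inr ⟨h4, w, hj⟩)
    apply hx₀Q
    rw [h3] at h5
    exact (Q.mul_mem_cancel_right h2).1 h5
  obtain ⟨M, hM, hJM⟩ := (eq_top_or_exists_le_coatom J).resolve_left hJ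
  obtain ⟨hMn, hMp, hMc⟩ := coatom_facts hG hM
  set P : Subgroup 𝔾 := (M.comap mk).map Γ.subtype with hP
  have hmemP : ∀ x : Γ, mk x ∈ M → (x : 𝔾) ∈ P := fun x hx => ⟨x, hx, rfl⟩
  have hPΓ : P ≤ Γ := by
    rintro _ ⟨x, _, rfl⟩
    exact x.2
  have hQP : Q ≤ P := by
    intro q hq
    refine hmemP ⟨q, hHΓ (hQH hq)⟩ ?_
    rw [(hmk1 ⟨q, hHΓ (hQH hq)⟩).2 hq]
    exact M.one_mem
  have h3 : P.relIndex Γ = M.index := by
    show (((M.comap mk).map Γ.subtype).comap Γ.subtype).index = M.index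
    rw [comap_map_eq_self_of_injective Γ.subtype_injective, index_comap_of_surjective M hmk]
  have h4 : gens p I Γ ⊆ P := by
    rintro x ((⟨a, ha, rfl⟩ | ⟨a, ha, b, hb, rfl⟩) | ⟨hx, A, hA⟩)
    · refine hmemP (⟨a, ha⟩ ^ p) ?_
      rw [map_pow]
      exact hMp _
    · refine hmemP ⁅(⟨a, ha⟩ : Γ), (⟨b, hb⟩ : Γ)⁆ ?_
      rw [map_commutatorElement]
      exact hMc _ _
    · refine hmemP ⟨x, hx⟩ ?_
      rcases hcov A with h5 | ⟨g, hg', rfl⟩
      · have h6 : x ∈ Q := hgQ (Or.inr ⟨⟨hx, h5 ⟨hA, hx⟩⟩, A, hA⟩)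
        rw [(hmk1 ⟨x, hx⟩).2 h6]
        exact M.one_mem
      · have h6 := hI g⁻¹ (g • w) x hA
        rw [inv_smul_smul] at h6
        have h7 : mk ((⟨g, hg'⟩ : Γ)⁻¹ * ⟨x, hx⟩ * ((⟨g, hg'⟩ : Γ)⁻¹)⁻¹) ∈ M := hJM ⟨_, h6, rfl⟩
        have h8 := hMn.conj_mem _ h7 (mk ⟨g, hg'⟩)
        have h9 : mk ⟨g, hg'⟩ * mk ((⟨g, hg'⟩ : Γ)⁻¹ * ⟨x, hx⟩ * ((⟨g, hg'⟩ : Γ)⁻¹)⁻¹) *
            (mk ⟨g, hg'⟩)⁻¹ = mk ⟨x, hx⟩ := by
          rw [← map_inv, ← map_mul, ← map_mul]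
          congr 1
          group
        rwa [h9] at h8
  have h5 := h P hPΓ (Subgroup.isOpen_mono hQP hQo) (by
    rw [h3]
    exact M.index_ne_zero_of_finite) h4
  rw [h3] at h5
  have h6 : M.index = 1 := le_antisymm h5 (Nat.one_le_iff_ne_zero.2 M.index_ne_zero_of_finite)
  exact hM.1 (index_eq_one.1 h6)

end Pool.Agent.W5h77.MB
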