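import Pool.Agent.W5h77.MB.Main
import Pool.Agent.Q60.MU.Fields

/-!
# Real subfields and abelian parts of number fields
-/

set_option autoImplicit false

namespace Pool.Agent.W5h77.MB

open IntermediateField Module Pool.Agent.Q60.MU
open Pool.Agent.X310.Mu (comms)
open scoped commutatorElement ComplexConjugate

/-- The algebraic numbers which are real for the embedding `ι`. -/
def realSub0 (ι : Qb →+* ℂ) : IntermediateField ℚ Qb where
  carrier := {x | conj (ι x) = ι x}
  mul_mem' := by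
    intro a b ha hb
    show conj (ι (a * b)) = ι (a * b)
    rw [map_mul, map_mul, show conj (ι a) = ι a from ha, show conj (ι b) = ι b from hb]
  add_mem' := by
    intro a b ha hb
    show conj (ι (a + b)) = ι (a + b)
    rw [map_add, map_add, show conj (ι a) = ι a from ha, show conj (ι b) = ι b from hb]
  algebraMap_mem' := by
    intro r
    show conj (ι (algebraMap ℚ Qb r)) = ι (algebraMap ℚ Qb r)
    rw [eq_ratCast, map_ratCast, map_ratCast]
  inv_mem' := by
    intro a ha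
    show conj (ι a⁻¹) = ι a⁻¹
    rw [map_inv₀, map_inv₀, show conj (ι a) = ι a from ha]

/-- The field of the algebraic numbers which are real for the embedding `ι`. -/
noncomputable def realSub (ι : Qb →+* ℂ) : IntermediateField ℚ Qb :=
  adjoin ℚ {x : Qb | conj (ι x) = ι x}

theorem mem_realSub {ι : Qb →+* ℂ} {x : Qb} : x ∈ realSub ι ↔ conj (ι x) = ι x := by
  have h : realSub ι = realSub0 ι := le_antisymm (adjoin_le_iff.2 fun x hx => hx) fun x hx =>
    subset_adjoin ℚ _ hx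
  rw [h]
  exact Iff.rfl

/-- The elements of `K` on which the absolute Galois group acts commutatively. -/
def abPart0 (K : IntermediateField ℚ Qb) : IntermediateField ℚ Qb where
  carrier := {x | x ∈ K ∧ ∀ σ τ : Gal(Qb/ℚ), σ (τ x) = τ (σ x)}
  mul_mem' := by
    rintro a b ⟨ha, ha'⟩ ⟨hb, hb'⟩
    refine ⟨mul_mem ha hb, fun σ τ => ?_⟩
    rw [map_mul, map_mul, map_mul, map_mul, ha', hb']
  add_mem' := by
    rintro a b ⟨ha, ha'⟩ ⟨hb, hb'⟩
    refine ⟨add_mem ha hb, fun σ τ => ?_⟩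
    rw [map_add, map_add, map_add, map_add, ha', hb']
  algebraMap_mem' := by
    intro r
    refine ⟨K.algebraMap_mem r, fun σ τ => ?_⟩
    rw [σ.commutes, τ.commutes, σ.commutes]
  inv_mem' := by
    rintro a ⟨ha, ha'⟩
    refine ⟨inv_mem ha, fun σ τ => ?_⟩
    rw [map_inv₀, map_inv₀, map_inv₀, map_inv₀, ha']

/-- The largest subfield of `K` which is abelian over `ℚ`, if `K / ℚ` is Galois: the field of the
elements of `K` on which the absolute Galois group acts commutatively. -/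
noncomputable def abPart (K : IntermediateField ℚ Qb) : IntermediateField ℚ Qb :=
  adjoin ℚ {x : Qb | x ∈ K ∧ ∀ σ τ : Gal(Qb/ℚ), σ (τ x) = τ (σ x)}

theorem mem_abPart {K : IntermediateField ℚ Qb} {x : Qb} :
    x ∈ abPart K ↔ x ∈ K ∧ ∀ σ τ : Gal(Qb/ℚ), σ (τ x) = τ (σ x) := by
  have h : abPart K = abPart0 K := le_antisymm (adjoin_le_iff.2 fun x hx => hx) fun x hx =>
    subset_adjoin ℚ _ hx
  rw [h]
  exact Iff.rfl

theorem abPart_le (K : IntermediateField ℚ Qb) : abPart K ≤ K := fun _ hx => (mem_abPart.1 hx).1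

/-- Complex conjugation. -/
theorem exists_conj (ι : Qb →+* ℂ) : ∃ c : Gal(Qb/ℚ), (∀ x, ι (c x) = conj (ι x)) ∧ c * c = 1 := by
  let _ : Algebra Qb ℂ := ι.toAlgebra
  have : IsScalarTower ℚ Qb ℂ := IsScalarTower.of_algebraMap_eq fun r => by
    show _ = ι (algebraMap ℚ Qb r)
    rw [eq_ratCast, eq_ratCast, map_ratCast]
  have hn : Normal ℚ Qb := inferInstance
  let c : Gal(Qb/ℚ) := (Complex.conjAe.restrictScalars ℚ).restrictNormal Qb
  have hc : ∀ x, ι (c x) = conj (ι x) := fun x =>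
    AlgEquiv.restrictNormal_commutes (Complex.conjAe.restrictScalars ℚ) Qb x
  refine ⟨c, hc, ?_⟩
  ext x
  apply ι.injective
  rw [AlgEquiv.mul_apply, hc, hc, Complex.conj_conj, AlgEquiv.one_apply]

theorem mem_fixed_sup {A B : Subgroup Gal(Qb/ℚ)} {x : Qb} :
    x ∈ fixedField (A ⊔ B) ↔ x ∈ fixedField A ∧ x ∈ fixedField B := by
  simp only [mem_fixedField_iff]
  constructor
  · exact fun h => ⟨fun f hf => h f (Subgroup.mem_sup_left hf), fun f hf => h f (Subgroup.mem_sup_right hf)⟩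
  · rintro ⟨h1, h2⟩
    have h3 : A ⊔ B ≤ MulAction.stabilizer Gal(Qb/ℚ) x := sup_le h1 h2
    exact fun f hf => h3 hf

/-- A field whose elements are the elements of `F` fixed by a subgroup. -/
theorem fix_of_mem {F M : IntermediateField ℚ Qb} [FiniteDimensional ℚ F] (B : Subgroup Gal(Qb/ℚ))
    (h : ∀ x, x ∈ M ↔ x ∈ F ∧ ∀ b ∈ B, b x = x) : M.fixingSubgroup = F.fixingSubgroup ⊔ B := by
  have h1 : IsOpen ((F.fixingSubgroup ⊔ B : Subgroup Gal(Qb/ℚ)) : Set Gal(Qb/ℚ)) :=
    Subgroup.isOpen_mono le_sup_left F.fixingSubgroup_isOpen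
  have h2 : fixedField (F.fixingSubgroup ⊔ B) = M := by
    ext x
    rw [mem_fixed_sup, InfiniteGalois.fixedField_fixingSubgroup, h, mem_fixedField_iff]
  rw [← h2]
  exact fix_fixed h1

theorem mem_sup_nrm {A B : Subgroup Gal(Qb/ℚ)} (hA : A.Normal) {x : Gal(Qb/ℚ)} (h : x ∈ A ⊔ B) :
    ∃ a ∈ A, ∃ b ∈ B, x = a * b := by
  rw [← SetLike.mem_coe, Subgroup.normal_mul] at h
  obtain ⟨a, ha, b, hb, rfl⟩ := h
  exact ⟨a, ha, b, hb, rfl⟩

section A
variable {K E : IntermediateField ℚ Qb} [FiniteDimensional ℚ K] [IsGalois ℚ K]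
  [IsGalois ℚ E] {ι : Qb →+* ℂ} {c : Gal(Qb/ℚ)}

omit [IsGalois ℚ K] [IsGalois ℚ E] in
theorem fix_real (hc : ∀ x, ι (c x) = conj (ι x)) :
    (K ⊓ realSub ι).fixingSubgroup = K.fixingSubgroup ⊔ Subgroup.zpowers c := by
  apply fix_of_mem
  intro x
  rw [mem_inf, mem_realSub]
  refine and_congr_right fun _ => ⟨fun h b hb => ?_, fun h => ?_⟩
  · have h1 : Subgroup.zpowers c ≤ MulAction.stabilizer Gal(Qb/ℚ) x := by
      rw [Subgroup.zpowers_le]
      show c x = x
      apply ι.injective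
      rw [hc, h]
    exact h1 hb
  · rw [← hc, h c (Subgroup.mem_zpowers c)]

omit [FiniteDimensional ℚ K] [IsGalois ℚ E] in
theorem mem_zpow (hcc : c * c = 1) {z : Gal(Qb/ℚ)} (hz : z ∈ Subgroup.zpowers c) : z = 1 ∨ z = c := by
  obtain ⟨n, rfl⟩ := hz
  rcases Int.even_or_odd' n with ⟨m, rfl | rfl⟩
  · left
    show c ^ (2 * m) = 1
    rw [zpow_mul, show c ^ (2 : ℤ) = c * c from zpow_two c, hcc, one_zpow]
  · right
    show c ^ (2 * m + 1) = c
    rw [zpow_add, zpow_mul, show c ^ (2 : ℤ) = c * c from zpow_two c, hcc, one_zpow, one_mul, zpow_one]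

end A

end Pool.Agent.W5h77.MB
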