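import Pool.Agent.W5h77.MB.Two

/-!
# The bound for a normal subgroup in terms of an involution
-/

set_option autoImplicit false

namespace Pool.Agent.W5h77.MB

open Subgroup Pool.Agent.Q60.MU
open Pool.Agent.X310.Mu (comms)
open scoped commutatorElement

variable {𝔾 : Type} [Group 𝔾]

theorem relIndex_two {𝒦 L : Subgroup 𝔾} {c : 𝔾} (h : ∀ l ∈ L, l ∈ 𝒦 ∨ l * c⁻¹ ∈ 𝒦)
    (hn : ∀ g, ∀ x ∈ 𝒦, g * x * g⁻¹ ∈ 𝒦) (hcL : c ∈ L) {p : ℕ} (hp : p.Prime) (hp2 : p ≠ 2) :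
    ¬ p ∣ 𝒦.relIndex L := by
  classical
  let f : Bool → L ⧸ 𝒦.subgroupOf L := fun b => if b then QuotientGroup.mk 1 else QuotientGroup.mk ⟨c, hcL⟩
  have hf : Function.Surjective f := by
    intro q
    obtain ⟨l, rfl⟩ := QuotientGroup.mk_surjective q
    rcases h l l.2 with h1 | h1
    · refine ⟨true, ?_⟩
      show QuotientGroup.mk 1 = QuotientGroup.mk l
      rw [QuotientGroup.eq]
      show ((1 : L)⁻¹ * l : L).1 ∈ 𝒦
      push_cast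
      rw [inv_one, one_mul]
      exact h1
    · refine ⟨false, ?_⟩
      show QuotientGroup.mk (⟨c, hcL⟩ : L) = QuotientGroup.mk l
      rw [QuotientGroup.eq]
      show ((⟨c, hcL⟩ : L)⁻¹ * l : L).1 ∈ 𝒦
      push_cast
      have h2 := hn c⁻¹ _ h1
      have h3 : c⁻¹ * (↑l * c⁻¹) * c⁻¹⁻¹ = c⁻¹ * ↑l := by group
      rwa [h3] at h2
  have h1 : 𝒦.relIndex L ≤ 2 := by
    show Nat.card (L ⧸ 𝒦.subgroupOf L) ≤ 2
    have h2 := Nat.card_le_card_of_surjective f hf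
    simpa using h2
  have h0 : 𝒦.relIndex L ≠ 0 := by
    have : Finite (L ⧸ 𝒦.subgroupOf L) := Finite.of_surjective f hf
    show Nat.card (L ⧸ 𝒦.subgroupOf L) ≠ 0
    exact Nat.card_pos.ne'
  intro hd
  have h2 := Nat.le_of_dvd (Nat.pos_of_ne_zero h0) hd
  have h3 := hp.two_le
  exact hp2 (le_antisymm (h2.trans h1) h3)

theorem two_bound [TopologicalSpace 𝔾] [ContinuousMul 𝔾] {p : ℕ} [hp : Fact p.Prime] (hp2 : p ≠ 2)
    {Ω : Type} [MulAction 𝔾 Ω] {I : Ω → Subgroup 𝔾}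
    (hI : ∀ (g : 𝔾) (w : Ω), ∀ x ∈ I w, g * x * g⁻¹ ∈ I (g • w))
    {K₀ 𝒦 L₁ L₂ : Subgroup 𝔾} {c : 𝔾} (hc : c * c = 1)
    (h𝒦n : 𝒦.Normal) (h𝒦f : 𝒦.index ≠ 0)
    (hK1 : 𝒦 ≤ L₁) (hc1 : c ∈ L₁) (hL1 : ∀ l ∈ L₁, l ∈ 𝒦 ∨ l * c⁻¹ ∈ 𝒦)
    (hK2 : 𝒦 ≤ L₂) (hL2 : ∀ l ∈ L₂, ∃ k ∈ 𝒦, ∃ d ∈ comms c, l = k * d)
    (hn : ¬ p ∣ 𝒦.relIndex L₂) (hK₀f : K₀.index ≠ 0) (hK₀c : ∀ h ∈ K₀, ⁅h, c⁆ ∈ 𝒦)
    {C1 C2 : ℕ} (h1 : RankLe p I L₁ C1) (h2 : RankLe p I L₂ C2) :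
    RankLe p I 𝒦 (C1 ^ K₀.index * C2) := by
  classical
  intro W hWK hWo hWf hg
  obtain ⟨Q, hQW, hQo, hQf, hgQ, hQn⟩ := exists_core hI (K := 𝒦) (D := ⊤)
    (fun d _ x hx => h𝒦n.conj_mem x hx d) (by rwa [relIndex_top_right]) hWK hWo hWf hg
  have hQK := hQW.trans hWK
  have hQnorm : Q.Normal := ⟨fun x hx g => hQn g trivial x hx⟩
  refine (relIndex_le_of_le_left hQW hQf).trans ?_
  rw [← card_VV 𝒦 Q]
  have hfin : Finite (VV 𝒦 Q) := by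
    apply Nat.finite_of_card_ne_zero
    rw [card_VV]
    exact hQf
  have hcomm : ∀ u v : VV 𝒦 Q, u * v = v * u := by
    intro u v
    obtain ⟨x, rfl⟩ := th_surj 𝒦 Q u
    obtain ⟨y, rfl⟩ := th_surj 𝒦 Q v
    have h3 : th 𝒦 Q ⁅x, y⁆ = 1 := by
      rw [th_eq_one]
      exact hgQ (Or.inl (Or.inr ⟨x, x.2, y, y.2, rfl⟩))
    rw [map_commutatorElement, commutatorElement_eq_one_iff_mul_comm] at h3
    exact h3
  have hpow : ∀ v : VV 𝒦 Q, v ^ p = 1 := by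
    intro v
    obtain ⟨x, rfl⟩ := th_surj 𝒦 Q v
    rw [← map_pow, th_eq_one]
    exact hgQ (Or.inl (Or.inl ⟨x, x.2, rfl⟩))
  let _ : CommGroup (VV 𝒦 Q) := { (inferInstance : Group (VV 𝒦 Q)) with mul_comm := hcomm }
  have htriv : ∀ x ∈ 𝒦, act 𝒦 Q x = 1 := by
    intro x hx
    ext1 v
    obtain ⟨y, rfl⟩ := th_surj 𝒦 Q v
    rw [act_th, MulAut.one_apply]
    have h3 : (⟨x * y * x⁻¹, h𝒦n.conj_mem y y.2 x⟩ : 𝒦) = ⟨x, hx⟩ * y * ⟨x, hx⟩⁻¹ := rfl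
    rw [h3, map_mul, map_mul, map_inv, hcomm (th 𝒦 Q ⟨x, hx⟩), mul_assoc, mul_inv_cancel, mul_one]
  -- the conjugates of the involution
  have hinv : ∀ g : 𝔾, act 𝒦 Q (g * c * g⁻¹) * act 𝒦 Q (g * c * g⁻¹) = 1 := by
    intro g
    rw [← map_mul, show g * c * g⁻¹ * (g * c * g⁻¹) = g * (c * c) * g⁻¹ by group, hc, mul_one,
      mul_inv_cancel, map_one]
  let r : 𝔾 ⧸ K₀ → 𝔾 := fun i => i.out
  let γ : 𝔾 ⧸ K₀ → MulAut (VV 𝒦 Q) := fun i => act 𝒦 Q (r i * c * (r i)⁻¹)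
  have hK₀fi : K₀.FiniteIndex := ⟨hK₀f⟩
  have : Fintype (𝔾 ⧸ K₀) := Fintype.ofFinite _
  have hγ : ∀ g : 𝔾, ∃ i, act 𝒦 Q (g * c * g⁻¹) = γ i := by
    intro g
    refine ⟨QuotientGroup.mk g, ?_⟩
    obtain ⟨h, hh⟩ := QuotientGroup.mk_out_eq_mul K₀ g
    have h3 : r (QuotientGroup.mk g) = g * h := hh
    show _ = act 𝒦 Q (r (QuotientGroup.mk g) * c * (r (QuotientGroup.mk g))⁻¹)
    have h5 : g * ↑h * c * (g * ↑h)⁻¹ = (g * ⁅(h : 𝔾), c⁆ * g⁻¹) * (g * c * g⁻¹) := by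
      rw [commutatorElement_def]
      group
    rw [h3, h5, map_mul (act 𝒦 Q) (g * ⁅(h : 𝔾), c⁆ * g⁻¹),
      htriv _ (h𝒦n.conj_mem _ (hK₀c h h.2) g), one_mul]
  have hN : ∀ i, (neg (γ i)).index ≤ C1 := by
    intro i
    set g := r i with hgdef
    have hconj : ∀ x, (MulAut.conj g).toMonoidHom x = g * x * g⁻¹ := fun x => rfl
    refine step 𝒦 Q (L := L₁.map (MulAut.conj g).toMonoidHom) ?_ ?_ hQK hQo hQf hgQ ?_ (h1.conj hI g)
    · intro x hx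
      refine ⟨g⁻¹ * x * g, hK1 ?_, ?_⟩
      · have h3 := h𝒦n.conj_mem x hx g⁻¹
        rwa [inv_inv] at h3
      · rw [hconj]
        group
    · have hcm : g * c * g⁻¹ ∈ L₁.map (MulAut.conj g).toMonoidHom := ⟨c, hc1, rfl⟩
      refine relIndex_two (c := g * c * g⁻¹) ?_ (fun g x hx => h𝒦n.conj_mem x hx g) hcm
        hp.out hp2
      rintro _ ⟨l, hl, rfl⟩
      rw [hconj]
      rcases hL1 l hl with h3 | h3
      · exact Or.inl (h𝒦n.conj_mem l h3 g)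
      · right
        have h4 := h𝒦n.conj_mem _ h3 g
        have h5 : g * l * g⁻¹ * (g * c * g⁻¹)⁻¹ = g * (l * c⁻¹) * g⁻¹ := by group
        rw [h5]
        exact h4
    · rintro _ ⟨l, hl, rfl⟩ v
      rw [hconj]
      rcases hL1 l hl with h3 | h3
      · rw [htriv _ (h𝒦n.conj_mem l h3 g), MulAut.one_apply, mul_inv_cancel]
        exact one_mem _
      · have h4 := h𝒦n.conj_mem _ h3 g
        have h5 : g * l * g⁻¹ = (g * (l * c⁻¹) * g⁻¹) * (g * c * g⁻¹) := by group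
        rw [h5, map_mul, htriv _ h4, one_mul, mem_neg]
        show γ i (γ i v * v⁻¹) = (γ i v * v⁻¹)⁻¹
        have h6 : γ i (γ i v) = v := by
          rw [← MulAut.mul_apply]
          show (act 𝒦 Q (g * c * g⁻¹) * act 𝒦 Q (g * c * g⁻¹)) v = v
          rw [hinv, MulAut.one_apply]
        rw [map_mul, map_inv, h6, mul_inv_rev, inv_inv]
  let D : Subgroup (MulAut (VV 𝒦 Q)) := L₂.map (act 𝒦 Q)
  have hD : ¬ p ∣ Nat.card D := by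
    intro hdvd
    apply hn
    refine hdvd.trans ?_
    have h3 : D = ((act 𝒦 Q).comp L₂.subtype).range := by
      ext δ
      constructor
      · rintro ⟨l, hl, rfl⟩
        exact ⟨⟨l, hl⟩, rfl⟩
      · rintro ⟨l, rfl⟩
        exact ⟨l, l.2, rfl⟩
    rw [h3, ← index_ker]
    show _ ∣ (𝒦.subgroupOf L₂).index
    apply index_dvd_of_le
    intro x hx
    exact htriv _ hx
  have hker : (nu D).ker.index ≤ C2 := by
    refine step 𝒦 Q hK2 hn hQK hQo hQf hgQ ?_ h2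
    intro l hl v
    rw [MonoidHom.mem_ker, map_mul, map_inv, nu_act D ⟨l, hl, rfl⟩, mul_inv_cancel]
  have hfix : ∀ v : VV 𝒦 Q, (∀ i, γ i v = v⁻¹) → ∀ δ ∈ D, δ v = v := by
    rintro v hv _ ⟨l, hl, rfl⟩
    have hv' : ∀ g : 𝔾, act 𝒦 Q (g * c * g⁻¹) v = v⁻¹ := by
      intro g
      obtain ⟨i, hi⟩ := hγ g
      rw [hi]
      exact hv i
    obtain ⟨k, hk, d, hd, rfl⟩ := hL2 l hl
    rw [map_mul, htriv k hk, one_mul]
    have h3 : comms c ≤ (MulAction.stabilizer (MulAut (VV 𝒦 Q)) v).comap (act 𝒦 Q) := by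
      unfold comms
      rw [closure_le]
      rintro _ ⟨g, rfl⟩
      show act 𝒦 Q (g * c * g⁻¹ * c⁻¹) v = v
      have h4 : act 𝒦 Q c⁻¹ v = v⁻¹ := by
        have h5 := hv' 1
        rw [one_mul, inv_one, mul_one] at h5
        rwa [inv_eq_of_mul_eq_one_right hc]
      rw [map_mul, MulAut.mul_apply, h4, map_inv, hv' g, inv_inv]
    exact h3 hd
  have h3 := card_bound hp.out hpow γ D hD hfix hN hker
  have h4 : Fintype.card (𝔾 ⧸ K₀) = K₀.index := by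
    rw [← Nat.card_eq_fintype_card]
    rfl
  rw [h4] at h3
  exact h3

end Pool.Agent.W5h77.MB
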