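import Pool.Agent.W5h77.MB.Fld
import Pool.Agent.X310.MuGrp

/-!
# The bound by the real subfield and the abelian part
-/

set_option autoImplicit false

namespace Pool.Agent.W5h77.MB

open IntermediateField Module Pool.Agent.Q60.MU
open Pool.Agent.X310.Mu (comms comms_normal)
open scoped commutatorElement ComplexConjugate Pointwise

variable {k K E : IntermediateField ℚ Qb} {ι : Qb →+* ℂ} {c : Gal(Qb/ℚ)}

theorem quad_cases (hk : finrank ℚ k = 2) (hkc : c ∉ k.fixingSubgroup) (g : Gal(Qb/ℚ)) :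
    g ∈ k.fixingSubgroup ∨ ∃ s ∈ k.fixingSubgroup, g = s * c := by
  have hfd : FiniteDimensional ℚ k := FiniteDimensional.of_finrank_pos (by rw [hk]; norm_num)
  have h2 : k.fixingSubgroup.index = 2 := by
    rw [← finrank_eq_fixingSubgroup_index, hk]
  by_cases hg : g ∈ k.fixingSubgroup
  · exact Or.inl hg
  · right
    refine ⟨g * c⁻¹, ?_, by group⟩
    rw [Subgroup.mul_mem_iff_of_index_two h2]
    exact ⟨fun h => absurd h hg, fun h => absurd (inv_mem_iff.1 h) hkc⟩

/-- The abelian part of an abelian extension of an imaginary quadratic field. -/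
theorem fix_ab [FiniteDimensional ℚ K] [hKg : IsGalois ℚ K]
    (hk : finrank ℚ k = 2) (hkc : c ∉ k.fixingSubgroup)
    (hab : ∀ σ ∈ k.fixingSubgroup, ∀ τ ∈ k.fixingSubgroup, ∀ x ∈ K, σ (τ x) = τ (σ x)) :
    (abPart K).fixingSubgroup = K.fixingSubgroup ⊔ comms c := by
  have hKn : K.fixingSubgroup.Normal := (InfiniteGalois.normal_iff_isGalois K).2 hKg
  have hstab : ∀ (g : Gal(Qb/ℚ)) (x : Qb), x ∈ K → g x ∈ K := by
    intro g x hx
    rw [← InfiniteGalois.fixedField_fixingSubgroup K, mem_fixedField_iff]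
    intro f hf
    have h1 := hKn.conj_mem f hf g⁻¹
    have h2 : (g⁻¹ * f * g⁻¹⁻¹) x = x := (mem_fixingSubgroup_iff K _).1 h1 x hx
    have h3 : f (g x) = g ((g⁻¹ * f * g⁻¹⁻¹) x) := by
      rw [← AlgEquiv.mul_apply, ← AlgEquiv.mul_apply]
      congr 1
      group
    rw [h3, h2]
  apply fix_of_mem
  intro x
  rw [mem_abPart]
  refine and_congr_right fun hx => ⟨fun h b hb => ?_, fun h => ?_⟩
  · have h1 : comms c ≤ MulAction.stabilizer Gal(Qb/ℚ) x := by
      unfold comms
      rw [Subgroup.closure_le]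
      rintro _ ⟨g, rfl⟩
      show (g * c * g⁻¹ * c⁻¹) x = x
      have h2 := h g⁻¹ c⁻¹
      show g (c (g⁻¹ (c⁻¹ x))) = x
      rw [h2]
      show (g * (c * (c⁻¹ * g⁻¹))) x = x
      rw [mul_inv_cancel_left, mul_inv_cancel]
      rfl
    exact h1 hb
  · -- the elements fixed by the commutators with `c`
    have hcn := comms_normal c
    have hF : ∀ (g : Gal(Qb/ℚ)) (y : Qb), (∀ b ∈ comms c, b y = y) → ∀ b ∈ comms c, b (g y) = g y := by
      intro g y hy b hb
      have h1 := hy _ (hcn.conj_mem b hb g⁻¹)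
      have h3 : b (g y) = g ((g⁻¹ * b * g⁻¹⁻¹) y) := by
        rw [← AlgEquiv.mul_apply, ← AlgEquiv.mul_apply]
        congr 1
        group
      rw [h3, h1]
    have hcomm : ∀ (g : Gal(Qb/ℚ)) (y : Qb), (∀ b ∈ comms c, b y = y) → g (c y) = c (g y) := by
      intro g y hy
      have h1 := hF c _ (hF g y hy) (g * c * g⁻¹ * c⁻¹) (Subgroup.subset_closure ⟨g, rfl⟩)
      have h2 : (g * c * g⁻¹ * c⁻¹) (c (g y)) = g (c y) := by
        rw [← AlgEquiv.mul_apply, ← AlgEquiv.mul_apply, ← AlgEquiv.mul_apply]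
        congr 1
        group
      rw [← h2, h1]
    intro σ τ
    rcases quad_cases hk hkc σ with hσ | ⟨s, hs, rfl⟩
    · rcases quad_cases hk hkc τ with hτ | ⟨t, ht, rfl⟩
      · exact hab σ hσ τ hτ x hx
      · rw [AlgEquiv.mul_apply, AlgEquiv.mul_apply, hab σ hσ t ht _ (hstab c x hx), hcomm σ x h]
    · rcases quad_cases hk hkc τ with hτ | ⟨t, ht, rfl⟩
      · rw [AlgEquiv.mul_apply, AlgEquiv.mul_apply, ← hcomm τ x h,
          hab s hs τ hτ _ (hstab c x hx)]
      · show s (c (t (c x))) = t (c (s (c x)))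
        rw [← hcomm t (c x) (hF c x h), ← hcomm s (c x) (hF c x h),
          hab s hs t ht _ (hstab c _ (hstab c x hx))]

theorem thmA {p : ℕ} [hp : Fact p.Prime] (hp2 : p ≠ 2) (ι : Qb →+* ℂ)
    (k K E : IntermediateField ℚ Qb) [FiniteDimensional ℚ K] [hKg : IsGalois ℚ K]
    [FiniteDimensional ℚ E] [hEg : IsGalois ℚ E] (hE : E ≤ realSub ι)
    (hk : finrank ℚ k = 2) (hki : ¬ k ≤ realSub ι)
    (hab : ∀ σ ∈ k.fixingSubgroup, ∀ τ ∈ k.fixingSubgroup, ∀ x ∈ K, σ (τ x) = τ (σ x))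
    {n : ℕ} (hn : finrank ℚ K = n * finrank ℚ (abPart K)) (hpn : ¬ p ∣ n) {C1 C2 : ℕ}
    (h1 : DegLe p ((K ⊓ realSub ι) ⊔ E) C1) (h2 : DegLe p (abPart K ⊔ E) C2) :
    DegLe p (K ⊔ E) (C1 ^ finrank ℚ K * C2) := by
  obtain ⟨c, hc, hcc⟩ := exists_conj ι
  have hKn : K.fixingSubgroup.Normal := (InfiniteGalois.normal_iff_isGalois K).2 hKg
  have hEn : E.fixingSubgroup.Normal := (InfiniteGalois.normal_iff_isGalois E).2 hEg
  have hsub : ∀ M : IntermediateField ℚ Qb, M ≤ K → FiniteDimensional ℚ M := fun M hM =>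
    Submodule.finiteDimensional_of_le (S₁ := Subalgebra.toSubmodule M.toSubalgebra)
      (S₂ := Subalgebra.toSubmodule K.toSubalgebra) hM
  have hf1 := hsub (K ⊓ realSub ι) inf_le_left
  have hf2 := hsub (abPart K) (abPart_le K)
  have hkc : c ∉ k.fixingSubgroup := by
    intro h
    apply hki
    intro x hx
    rw [mem_realSub, ← hc]
    congr 1
    exact (mem_fixingSubgroup_iff k _).1 h x hx
  have hcE : c ∈ E.fixingSubgroup := by
    rw [IntermediateField.mem_fixingSubgroup_iff]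
    intro x hx
    apply ι.injective
    rw [hc]
    exact mem_realSub.1 (hE hx)
  have hcommE : comms c ≤ E.fixingSubgroup := by
    unfold comms
    rw [Subgroup.closure_le]
    rintro _ ⟨g, rfl⟩
    exact mul_mem (hEn.conj_mem c hcE g) (inv_mem hcE)
  rw [← rankLe_iff] at h1 h2 ⊢
  rw [fixingSubgroup_sup] at h1 h2 ⊢
  rw [fix_real hc] at h1
  have hfab := fix_ab hk hkc hab
  have hidx : finrank ℚ K = K.fixingSubgroup.index := finrank_eq_fixingSubgroup_index Qb K
  have hidx2 : finrank ℚ (abPart K) = (abPart K).fixingSubgroup.index :=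
    finrank_eq_fixingSubgroup_index Qb (abPart K)
  have hleab : K.fixingSubgroup ≤ (abPart K).fixingSubgroup := fixingSubgroup_le (abPart_le K)
  have hrel : K.fixingSubgroup.relIndex (abPart K).fixingSubgroup = n := by
    have h3 := Subgroup.relIndex_mul_index hleab
    rw [← hidx, ← hidx2, hn] at h3
    exact Nat.eq_of_mul_eq_mul_right finrank_pos h3
  rw [hidx]
  refine two_bound hp2 inertia_conj (c := c) hcc (L₁ := (K.fixingSubgroup ⊔ Subgroup.zpowers c) ⊓ E.fixingSubgroup)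
    (L₂ := (abPart K).fixingSubgroup ⊓ E.fixingSubgroup) ?_ ?_ ?_ ?_ ?_ ?_ ?_ ?_ ?_ ?_ h1 h2
  · exact Subgroup.normal_inf_normal _ _
  · exact Subgroup.index_inf_ne_zero (index_ne_zero' K) (index_ne_zero' E)
  · exact inf_le_inf_right _ le_sup_left
  · exact ⟨Subgroup.mem_sup_right (Subgroup.mem_zpowers c), hcE⟩
  · rintro l ⟨hl, hlE⟩
    obtain ⟨a, ha, z, hz, rfl⟩ := mem_sup_nrm hKn hl
    rcases mem_zpow hcc hz with rfl | rfl
    · left
      rw [mul_one] at hlE ⊢
      exact ⟨ha, hlE⟩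
    · right
      refine ⟨?_, E.fixingSubgroup.mul_mem hlE (E.fixingSubgroup.inv_mem hcE)⟩
      rw [mul_inv_cancel_right]
      exact ha
  · exact inf_le_inf_right _ hleab
  · rintro l ⟨hl, hlE⟩
    rw [hfab] at hl
    obtain ⟨a, ha, d, hd, rfl⟩ := mem_sup_nrm hKn hl
    refine ⟨a, ⟨ha, ?_⟩, d, hd, rfl⟩
    have h3 := E.fixingSubgroup.mul_mem hlE (E.fixingSubgroup.inv_mem (hcommE hd))
    rwa [mul_inv_cancel_right] at h3
  · intro hdvd
    apply hpn
    rw [← hrel]
    refine hdvd.trans ?_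
    have h3 : (K.fixingSubgroup ⊓ E.fixingSubgroup).relIndex
        ((abPart K).fixingSubgroup ⊓ E.fixingSubgroup) =
        K.fixingSubgroup.relIndex ((abPart K).fixingSubgroup ⊓ E.fixingSubgroup) := by
      rw [← Subgroup.inf_relIndex_right, ← Subgroup.inf_relIndex_right K.fixingSubgroup]
      congr 1
      ext x
      simp only [Subgroup.mem_inf]
      tauto
    rw [h3]
    have h4 : (K.fixingSubgroup.subgroupOf (abPart K).fixingSubgroup).Normal :=
      Subgroup.normal_subgroupOf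
    have h5 := Subgroup.relIndex_dvd_index_of_normal
      (K.fixingSubgroup.subgroupOf (abPart K).fixingSubgroup)
      (((abPart K).fixingSubgroup ⊓ E.fixingSubgroup).subgroupOf (abPart K).fixingSubgroup)
    rw [Subgroup.relIndex_subgroupOf inf_le_left] at h5
    exact h5
  · exact index_ne_zero' K
  · intro h hh
    refine ⟨?_, ?_⟩
    · rw [commutatorElement_def]
      have h3 := hKn.conj_mem _ (inv_mem hh) c
      have h4 : h * c * h⁻¹ * c⁻¹ = h * (c * h⁻¹ * c⁻¹) := by group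
      rw [h4]
      exact mul_mem hh h3
    · rw [commutatorElement_def]
      exact E.fixingSubgroup.mul_mem (hEn.conj_mem c hcE h) (E.fixingSubgroup.inv_mem hcE)

end Pool.Agent.W5h77.MB
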